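import Pool.Agent.Run7.h331.Final1

/-!
MP_faa29e_an, Q2 (and Q1 through it): description of the extremal functions of the Laurent
coefficient bodies `V_N(r)`, for all `N ≥ 0` and `0 < r < 1`.

(1) every boundary point of `V_N(r)` is the coefficient vector of exactly one `f ∈ B(A_r)`;
(2) `f ∈ B(A_r)` is extremal if and only if it is of outer, inner or two-sided type;
(3) `V_N(r)` consists of the vectors `t (a_{-N}(f), …, a_N(f))` with `0 ≤ t ≤ 1` and `f` of one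
of these types.
-/

namespace Pool.Agent.Results.MP_faa29e_an.ExtremalFunctions

open Run7.h331

theorem result (r : ℝ) (h0 : 0 < r) (h1 : r < 1) (N : ℕ) :
    (∀ v ∈ frontier (body r (Ext.I N)), ∃ (f : ℂ → ℂ) (a : ℤ → ℂ),
      IsB r f ∧ IsLaurent r f a ∧ (∀ k : Ext.I N, v k = a k) ∧
      ∀ (g : ℂ → ℂ) (b : ℤ → ℂ), IsB r g → IsLaurent r g b → (∀ k : Ext.I N, v k = b k) →
        ∀ z ∈ annulus r, g z = f z) ∧
    (∀ (f : ℂ → ℂ) (a : ℤ → ℂ), IsB r f → IsLaurent r f a →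
      ((fun k : Ext.I N => a k) ∈ frontier (body r (Ext.I N)) ↔
        Ext.OuterType r N f ∨ Ext.InnerType r N f ∨ Ext.TwoSidedType r N f)) ∧
    (∀ v : Ext.I N → ℂ, v ∈ body r (Ext.I N) ↔ ∃ t : ℝ, 0 ≤ t ∧ t ≤ 1 ∧
      ∃ (f : ℂ → ℂ) (a : ℤ → ℂ), IsB r f ∧ IsLaurent r f a ∧
        (Ext.OuterType r N f ∨ Ext.InnerType r N f ∨ Ext.TwoSidedType r N f) ∧
        ∀ k : Ext.I N, v k = t * a k) :=
  ⟨fun _ hv => extremal_unique h0 h1 _ hv, fun _ _ hf hL => extremal_iff' h0 h1 N hf hL,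
    fun v => body_iff h0 h1 N v⟩

end Pool.Agent.Results.MP_faa29e_an.ExtremalFunctions
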