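import Pool.Agent.Run7.h331.SemiMain

/-!
MP_faa29e_an, Q1: for `0 < r < 1` and a finite set `S` of integers, the coefficient body
`{(a_k(f))_{k ∈ S} : f ∈ B(A_r)} ⊆ ℂ^S` is semialgebraic if and only if `S` has at most one
element.  In particular `V_N(r)` (the case `S = {-N, …, N}`) is not semialgebraic for `N ≥ 1`.
-/

namespace Pool.Agent.Results.MP_faa29e_an.SemialgebraicIff

theorem result (r : ℝ) (h0 : 0 < r) (h1 : r < 1) (S : Finset ℤ) :
    Run7.h331.IsSemialg (Run7.h331.realForm (Run7.h331.body r S)) ↔ S.card ≤ 1 :=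
  Run7.h331.semialg_iff h0 h1 S

end Pool.Agent.Results.MP_faa29e_an.SemialgebraicIff
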