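import Pool.Agent.Run7.h331.Many3

/-!
MP_faa29e_an, Q2: for every `0 < r < 1`, every `N ≥ 1` and every `K` there is an extremal function
of `V_N(r)` that is analytic on the closed annulus, unimodular on both boundary circles, and has
more than `K` zeros in the annulus.  So no bound for the number of zeros of such extremal
functions in terms of `N` and `r` exists, in contrast to Schur's theorem for the disc.
-/

namespace Pool.Agent.Results.MP_faa29e_an.UnboundedZeros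

open Run7.h331

theorem result (r : ℝ) (h0 : 0 < r) (h1 : r < 1) (N : ℕ) (hN : 1 ≤ N) (K : ℕ) :
    ∃ (f : ℂ → ℂ) (a : ℤ → ℂ), IsB r f ∧ IsLaurent r f a ∧
      (fun k : (Finset.Icc (-(N : ℤ)) N) => a k) ∈
        frontier (body r (Finset.Icc (-(N : ℤ)) N)) ∧
      ∃ (n : ℕ) (s : Fin n → ℂ) (g : ℂ → ℂ), K < n ∧ (∀ j, s j ∈ annulus r) ∧
        AnalyticOnNhd ℂ g {z | r ≤ ‖z‖ ∧ ‖z‖ ≤ 1} ∧
        (∀ z : ℂ, r ≤ ‖z‖ ∧ ‖z‖ ≤ 1 → g z ≠ 0) ∧
        (∀ z ∈ annulus r, f z = (∏ j, (z - s j)) * g z) ∧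
        ∀ z : ℂ, ‖z‖ = 1 ∨ ‖z‖ = r → ‖(∏ j, (z - s j)) * g z‖ = 1 :=
  many_zeros h0 h1 hN K

end Pool.Agent.Results.MP_faa29e_an.UnboundedZeros
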